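import Pool.Agent.D0H62.MK.KurForced
import Pool.Agent.D0H62.MK.Tree
import Pool.Agent.Results.MP_47bc22_lc.KurepaCoanalytic

/-!
# It is consistent that the set of codes of Kurepa trees is nonempty and `Δ¹₂`

Martin's axiom for `ℵ₁` dense sets together with a Kurepa tree is forced, over every ground model,
by a `σ`-closed forcing notion which adds a Kurepa family with countable conditions, followed by
a finite support iteration of forcing notions with the countable chain condition (first part).
Martin's axiom for `ℵ₁` dense sets together with a Kurepa family implies in ZFC that the set of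
the codes of regular Kurepa trees is nonempty and `Π¹₁`, hence `Δ¹₂` (second part).
-/

set_option autoImplicit false

open Set Cardinal
open Pool.Agent.H995R3.Kurepa Pool.Agent.Helper669.Forcing

namespace Pool.Agent.Results.MP_47bc22_lc.KurepaForced

open Pool.Agent.D0H62.MK

/-- `W` and `W'` are isomorphic. -/
theorem kurOn_congr {W W' : Type} [LinearOrder W] [LinearOrder W'] (i : W ≃o W')
    (h : KurOn W) : KurOn W' := by
  obtain ⟨S, hS⟩ := h
  refine ⟨fun α n ξ => S (i.symm α) n (i.symm ξ), fun E => ?_⟩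
  obtain ⟨X, h1, h2⟩ := hS fun y ξ => E (i y) (i ξ)
  refine ⟨fun ξ => X (i.symm ξ), fun α => ?_, fun y => ?_⟩
  · obtain ⟨n, hn⟩ := h1 (i.symm α)
    exact ⟨n, fun ξ hξ => hn _ (i.symm.lt_iff_lt.2 hξ)⟩
  · obtain ⟨ξ, hξ⟩ := h2 (i.symm y)
    refine ⟨i ξ, ?_⟩
    simpa using hξ

theorem kurOn_of_eq {o o' : Ordinal.{0}} (ho : o = o') (h : KurOn o.ToType) :
    KurOn o'.ToType := by
  subst ho
  exact h

/-- **Main result.** (1) Some forcing notion forces, over every ground model, that `ω₁` is
preserved, that Martin's axiom for `ℵ₁` dense sets holds, and that there is a Kurepa family.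
(2) In ZFC, Martin's axiom for `ℵ₁` dense sets and the existence of a Kurepa family imply that
the set `𝒦` of the codes of regular Kurepa trees on `ω₁` is nonempty and `Δ¹₂` (even `Π¹₁`). -/
theorem result :
    (∃ (P : Type) (_ : Preorder P), Nonempty P ∧ ∀ p : P,
      p ∈ W684.FM.OmegaOnePreserved P ∧ p ∈ W684.FM.MartinHolds P W684.FM.Om1 ∧
        p ∈ KurepaHolds P) ∧
    (W684.FM.MartinFor W684.FM.Om1 → KurepaFor →
      ∀ (e : Om × Om ≃ Om) (zero one : Om), zero ≠ one →
        (kurepaCodes e zero one).Nonempty ∧ IsDelta12 Om (kurepaCodes e zero one) ∧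
          IsPi11 Om (kurepaCodes e zero one)) := by
  refine ⟨exists_forcing, fun hMA hK e zero one h01 => ?_⟩
  have h1 : MartinAxiomAleph1 := by
    have h2 := W684.FM.martinFor_om1_iff.1 hMA
    intro P _ _ hP 𝒟 h𝒟 hd
    exact h2 P hP 𝒟 h𝒟 hd
  have h2 : KurOn Om := kurOn_of_eq (Cardinal.ord_aleph 1) hK
  obtain ⟨R, hR, hR'⟩ := exists_kurepa KurepaCoanalytic.like_Om KurepaCoanalytic.mk_Om h2
  obtain ⟨h3, h4, h5⟩ := KurepaCoanalytic.result h1 e zero one h01
  exact ⟨h5 ⟨R, hR, hR'⟩, h4, h3⟩

end Pool.Agent.Results.MP_47bc22_lc.KurepaForced
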